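import Mathlib
import Pool.Agent.V11171.Rich
import Pool.Agent.V11171.BiRich

/-!
MP_0bf243_co, Q1: every 7 x 7 square extends to a rich plane.
-/

set_option autoImplicit false

namespace Pool.Agent.Results.MP_0bf243_co.SevenSquares

open Pool.Agent.V11171.Rich Pool.Agent.V11171.BiRich

/-- A filled binary plane is rich: every finite horizontal word
`w(i,j) w(i,j+1) ... w(i,j+n-1)` and every finite vertical word
`w(i,j) w(i+1,j) ... w(i+n-1,j)` is rich. -/
def RichPlane (w : ℤ → ℤ → Fin 2) : Prop :=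
  (∀ i j : ℤ, ∀ n : ℕ, RichWord (seg (fun t => w i t) j n)) ∧
  (∀ i j : ℤ, ∀ n : ℕ, RichWord (seg (fun t => w t j) i n))

/-- index map on naturals, shifted by 10 -/
def F (n : ℕ) : ℕ := if n < 10 then n % 5 else if n ≤ 16 then n - 10 else 2 + (n + 3) % 5

/-- index map: `... 0 1 2 3 4 | 0 1 2 3 4 5 6 | 2 3 4 5 6 ...` -/
def f (n : ℤ) : ℤ := if n < 0 then n % 5 else if n ≤ 6 then n else 2 + (n - 7) % 5

def CN (W : ℕ → Bool) (i j l : ℕ) : Bool :=
  !(decide (i + l < j)) ||
  !((List.range l).all fun k => W (j + k) == W (j + l - 1 - k)) ||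
  !((List.range l).all fun k => W (i + k) == W (j + k)) ||
  ((List.range (j - i - l)).all fun k => W (i + l + k) == W (j - 1 - k)) ||
  ((List.range (j - i)).any fun m => (decide (0 < m)) &&
    (List.range l).all fun k => W (i + m + k) == W (j + k))

def chk (W : ℕ → Bool) : Bool :=
  ((List.range 5).all fun i => (List.range 6).all fun d => (List.range 5).all fun l =>
    CN W (12 + i) (12 + i + d) l) &&
  ((List.range 5).all fun l => (List.range 5).all fun e => (List.range 6).all fun d =>
    CN W (11 + e - l - d) (11 + e - l) l) &&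
  ((List.range 5).all fun e => (List.range 5).all fun j => (List.range 11).all fun l =>
    CN W (11 + e - l) (12 + j) l)

theorem chk_all : (List.range 128).all (fun m => chk (fun n => Nat.testBit m (F n))) = true := by
  decide +kernel

theorem bits_aux (a b c d e g h : Bool) : ∃ m ∈ List.range 128,
    Nat.testBit m 0 = a ∧ Nat.testBit m 1 = b ∧ Nat.testBit m 2 = c ∧ Nat.testBit m 3 = d ∧
    Nat.testBit m 4 = e ∧ Nat.testBit m 5 = g ∧ Nat.testBit m 6 = h := by
  refine ⟨a.toNat + 2 * b.toNat + 4 * c.toNat + 8 * d.toNat + 16 * e.toNat + 32 * g.toNat +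
    64 * h.toNat, ?_, ?_⟩
  · rw [List.mem_range]
    have ha := Bool.toNat_lt a
    have hb := Bool.toNat_lt b
    have hc := Bool.toNat_lt c
    have hd := Bool.toNat_lt d
    have he := Bool.toNat_lt e
    have hg := Bool.toNat_lt g
    have hh := Bool.toNat_lt h
    omega
  · revert a b c d e g h
    decide +kernel

theorem F_lt (n : ℕ) : F n < 7 := by
  unfold F
  split_ifs <;> omega

theorem f_F (n : ℕ) : f ((n : ℤ) - 10) = F n := by
  unfold f F
  split_ifs <;> omega

theorem CN_spec (V : ℕ → Bool) (W : ℤ → Fin 2)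
    (h : ∀ n : ℕ, V n = decide (W ((n : ℤ) - 10) = 1)) (i j l : ℕ) (hc : CN V i j l = true) :
    Cond W ((i : ℤ) - 10) ((j : ℤ) - 10) l := by
  have hV : ∀ a b : ℕ, V a = V b ↔ W ((a : ℤ) - 10) = W ((b : ℤ) - 10) := by
    intro a b
    rw [h a, h b]
    generalize W ((a : ℤ) - 10) = p
    generalize W ((b : ℤ) - 10) = q
    revert p q
    decide
  intro h1 hp ho
  simp only [CN, Bool.or_eq_true, Bool.not_eq_true', decide_eq_false_iff_not, List.all_eq_false,
    List.all_eq_true, List.any_eq_true, Bool.and_eq_true, decide_eq_true_eq, List.mem_range,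
    beq_iff_eq] at hc
  rcases hc with (((hc | hc) | hc) | hc) | hc
  · omega
  · obtain ⟨k, hk, hk2⟩ := hc
    exfalso
    apply hk2
    rw [hV]
    rw [hp (((j + k : ℕ) : ℤ) - 10) (by omega) (by omega)]
    congr 1
    omega
  · obtain ⟨k, hk, hk2⟩ := hc
    exfalso
    apply hk2
    rw [hV]
    have := ho k (by omega) (by omega)
    have e1 : ((i + k : ℕ) : ℤ) - 10 = (i : ℤ) - 10 + k := by push_cast; ring
    have e2 : ((j + k : ℕ) : ℤ) - 10 = (j : ℤ) - 10 + k := by push_cast; ring
    rw [e1, e2]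
    exact this
  · left
    intro n h2 h3
    obtain ⟨k, hk⟩ := Int.eq_ofNat_of_zero_le (show 0 ≤ n - (i - 10 + l) by omega)
    have := hc k (by omega)
    rw [hV] at this
    have e1 : ((i + l + k : ℕ) : ℤ) - 10 = n := by omega
    rw [e1] at this
    rw [this]
    congr 1
    omega
  · right
    obtain ⟨m, hm, hm0, hm2⟩ := hc
    refine ⟨(i : ℤ) - 10 + m, by omega, by omega, ?_⟩
    intro n h2 h3
    obtain ⟨k, rfl⟩ := Int.eq_ofNat_of_zero_le h2
    have := hm2 k (by omega)
    rw [hV] at this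
    have e1 : ((i + m + k : ℕ) : ℤ) - 10 = (i : ℤ) - 10 + m + k := by push_cast; ring
    have e2 : ((j + k : ℕ) : ℤ) - 10 = (j : ℤ) - 10 + k := by push_cast; ring
    rw [e1, e2] at this
    exact this

theorem line_rich (x : ℤ → Fin 2) (i : ℤ) (n : ℕ) : RichWord (seg (fun t => x (f t)) i n) := by
  set W : ℤ → Fin 2 := fun t => x (f t) with hW
  obtain ⟨m, hm, b0, b1, b2, b3, b4, b5, b6⟩ := bits_aux (decide (x 0 = 1)) (decide (x 1 = 1))
    (decide (x 2 = 1)) (decide (x 3 = 1)) (decide (x 4 = 1)) (decide (x 5 = 1)) (decide (x 6 = 1))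
  have hb : ∀ k : ℕ, k < 7 → Nat.testBit m k = decide (x k = 1) := by
    intro k hk
    interval_cases k
    · exact b0
    · exact b1
    · exact b2
    · exact b3
    · exact b4
    · exact b5
    · exact b6
  have hV : ∀ n : ℕ, Nat.testBit m (F n) = decide (W ((n : ℤ) - 10) = 1) := by
    intro n
    have e : W ((n : ℤ) - 10) = x (F n) := by
      rw [← f_F]
    rw [hb _ (F_lt n)]
    simp only [e]
  have hchk : chk (fun n => Nat.testBit m (F n)) = true := (List.all_eq_true.1 chk_all) m hm
  have hspec := CN_spec (fun n => Nat.testBit m (F n)) W hV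
  simp only [chk, Bool.and_eq_true, List.all_eq_true, List.mem_range] at hchk
  obtain ⟨⟨c1, c2⟩, c3⟩ := hchk
  apply rich_of_cond W
  intro i j l hl
  apply cond_of_checks W _ _ _ _ _ i j l hl
  · intro n hn
    simp only [hW]
    congr 1
    unfold f
    split_ifs <;> omega
  · intro n hn
    simp only [hW]
    congr 1
    unfold f
    split_ifs <;> omega
  · intro i j l h1 h2 h3 h4 h5 h6
    have := hspec _ _ _ (c1 (i - 2).toNat (by omega) (j - i).toNat (by omega) l.toNat (by omega))
    have e1 : ((12 + (i - 2).toNat : ℕ) : ℤ) - 10 = i := by omega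
    have e2 : ((12 + (i - 2).toNat + (j - i).toNat : ℕ) : ℤ) - 10 = j := by omega
    have e3 : (l.toNat : ℤ) = l := by omega
    rw [e1, e2, e3] at this
    exact this
  · intro i j l h1 h2 h3 h4 h5 h6
    have := hspec _ _ _ (c2 l.toNat (by omega) (j + l - 1).toNat (by omega) (j - i).toNat (by omega))
    have e1 : ((11 + (j + l - 1).toNat - l.toNat - (j - i).toNat : ℕ) : ℤ) - 10 = i := by omega
    have e2 : ((11 + (j + l - 1).toNat - l.toNat : ℕ) : ℤ) - 10 = j := by omega
    have e3 : (l.toNat : ℤ) = l := by omega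
    rw [e1, e2, e3] at this
    exact this
  · intro i j l h1 h2 h3 h4 h5 h6
    have := hspec _ _ _ (c3 (i + l - 1).toNat (by omega) (j - 2).toNat (by omega) l.toNat (by omega))
    have e1 : ((11 + (i + l - 1).toNat - l.toNat : ℕ) : ℤ) - 10 = i := by omega
    have e2 : ((12 + (j - 2).toNat : ℕ) : ℤ) - 10 = j := by omega
    have e3 : (l.toNat : ℤ) = l := by omega
    rw [e1, e2, e3] at this
    exact this

/-- Every two-dimensional binary word all of whose non-empty cells lie in a 7 x 7 block extends to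
a rich plane. -/
theorem result (w : ℤ → ℤ → Option (Fin 2)) (i₀ j₀ : ℤ)
    (hw : ∀ i j : ℤ, w i j ≠ none → i₀ ≤ i ∧ i ≤ i₀ + 6 ∧ j₀ ≤ j ∧ j ≤ j₀ + 6) :
    ∃ w' : ℤ → ℤ → Fin 2, RichPlane w' ∧ ∀ i j : ℤ, ∀ a : Fin 2, w i j = some a → w' i j = a := by
  refine ⟨fun i j => (w (i₀ + f (i - i₀)) (j₀ + f (j - j₀))).getD 0, ⟨?_, ?_⟩, ?_⟩
  · intro i j n
    have := line_rich (fun t => (w (i₀ + f (i - i₀)) (j₀ + t)).getD 0) (j - j₀) n
    have e : seg (fun t => (w (i₀ + f (i - i₀)) (j₀ + f (t - j₀))).getD 0) j n =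
        seg (fun t => (w (i₀ + f (i - i₀)) (j₀ + f t)).getD 0) (j - j₀) n := by
      unfold seg
      apply List.map_congr_left
      intro k _
      simp only
      have : j + (k : ℤ) - j₀ = j - j₀ + k := by ring
      rw [this]
    rw [e]
    exact this
  · intro i j n
    have := line_rich (fun t => (w (i₀ + t) (j₀ + f (j - j₀))).getD 0) (i - i₀) n
    have e : seg (fun t => (w (i₀ + f (t - i₀)) (j₀ + f (j - j₀))).getD 0) i n =
        seg (fun t => (w (i₀ + f t) (j₀ + f (j - j₀))).getD 0) (i - i₀) n := by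
      unfold seg
      apply List.map_congr_left
      intro k _
      simp only
      have : i + (k : ℤ) - i₀ = i - i₀ + k := by ring
      rw [this]
    rw [e]
    exact this
  · intro i j a ha
    obtain ⟨h1, h2, h3, h4⟩ := hw i j (by rw [ha]; simp)
    have e1 : f (i - i₀) = i - i₀ := by
      unfold f
      split_ifs <;> omega
    have e2 : f (j - j₀) = j - j₀ := by
      unfold f
      split_ifs <;> omega
    simp only [e1, e2]
    have e3 : i₀ + (i - i₀) = i := by ring
    have e4 : j₀ + (j - j₀) = j := by ring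
    rw [e3, e4, ha]
    rfl

end Pool.Agent.Results.MP_0bf243_co.SevenSquares
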